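import Mathlib

set_option autoImplicit false

/-! Finite invertible automata and the groups they generate. -/

namespace Pool.Agent.V5helper35.Iso

/-- A finite invertible automaton over the alphabet `Fin n` (`n ≥ 2`) with the set of states
`Fin m`: a transition map, and for every state a permutation of the alphabet. -/
structure Automaton where
  /-- number of states -/
  m : ℕ
  /-- number of letters -/
  n : ℕ
  two_le : 2 ≤ n
  /-- transition map -/
  trans : Fin m → Fin n → Fin m
  /-- output map -/
  out : Fin m → Equiv.Perm (Fin n)

namespace Automaton

variable (A : Automaton)

/-- The action of a state on finite words: `s (x w) = (out s x) ((trans s x) w)`. -/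
def act : Fin A.m → List (Fin A.n) → List (Fin A.n)
  | _, [] => []
  | s, x :: w => A.out s x :: act (A.trans s x) w

/-- The inverse of the action of a state. -/
def actInv : Fin A.m → List (Fin A.n) → List (Fin A.n)
  | _, [] => []
  | s, y :: w => (A.out s).symm y :: actInv (A.trans s ((A.out s).symm y)) w

theorem actInv_act (s : Fin A.m) (w : List (Fin A.n)) : A.actInv s (A.act s w) = w := by
  induction w generalizing s with
  | nil => rfl
  | cons x w ih => simp [act, actInv, ih]

theorem act_actInv (s : Fin A.m) (w : List (Fin A.n)) : A.act s (A.actInv s w) = w := by
  induction w generalizing s with
  | nil => rfl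
  | cons x w ih => simp [act, actInv, ih]

/-- A state as a permutation of the set of finite words. -/
def perm (s : Fin A.m) : Equiv.Perm (List (Fin A.n)) where
  toFun := A.act s
  invFun := A.actInv s
  left_inv := A.actInv_act s
  right_inv := A.act_actInv s

/-- The self-similar group `G(A)` generated by the states of the automaton. -/
def group : Subgroup (Equiv.Perm (List (Fin A.n))) := Subgroup.closure (Set.range A.perm)

/-- The input given to an algorithm: the number of letters, and for every state the list over the
letters `x` of the pairs (next state, output letter). -/
def code : ℕ × List (List (ℕ × ℕ)) :=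
  (A.n, List.ofFn fun s => List.ofFn fun x => ((A.trans s x : ℕ), (A.out s x : ℕ)))

end Automaton

end Pool.Agent.V5helper35.Iso
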