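import Mathlib
import Pool.Agent.V5helper35.Iso.Defs
import Pool.Agent.Helper425_zc.Comp

set_option autoImplicit false

/-! The automaton of a finite set of affine maps of `ℤ⁴`. -/

namespace Pool.Agent.V5helper35.Iso

/-- the `e`-th entry -/
def ent (L : List ℤ) (e : ℕ) : ℤ := L.getD e 0

/-- bound for the translations -/
def CC (L : List ℤ) : ℕ := 2 * (L.map Int.natAbs).sum + 2

/-- number of translations in every coordinate -/
def KK (L : List ℤ) : ℕ := 2 * CC L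

/-- number of states -/
def nst (g : ℕ) (L : List ℤ) : ℕ := (g + 1) * KK L ^ 4

/-- the shifted translation of a state -/
def ui (g : ℕ) (L : List ℤ) (s j : ℕ) : ℕ := s / (g + 1) / KK L ^ j % KK L

/-- the translation of a state -/
def vi (g : ℕ) (L : List ℤ) (s j : ℕ) : ℤ := (ui g L s j : ℤ) - CC L

/-- digit of a letter -/
def dg (x j : ℕ) : ℕ := x / 2 ^ j % 2

/-- value before division -/
def yy (g : ℕ) (L : List ℤ) (s x j : ℕ) : ℤ :=
  ent L (8 * (s % (g + 1)) + 2 * j) * dg x (j / 2 * 2) +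
    ent L (8 * (s % (g + 1)) + 2 * j + 1) * dg x (j / 2 * 2 + 1) + vi g L s j

/-- the new shifted translation -/
def nu (g : ℕ) (L : List ℤ) (s x j : ℕ) : ℕ := (yy g L s x j / 2 + CC L).toNat % KK L

/-- transition function -/
def tr (g : ℕ) (L : List ℤ) (s x : ℕ) : ℕ :=
  s % (g + 1) + (g + 1) * (nu g L s x 0 + KK L * (nu g L s x 1 + KK L * (nu g L s x 2 +
    KK L * nu g L s x 3)))

/-- output digit -/
def od (g : ℕ) (L : List ℤ) (s x j : ℕ) : ℕ := (dg x j + ui g L s j + CC L) % 2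

/-- output function -/
def ou (g : ℕ) (L : List ℤ) (s x : ℕ) : ℕ :=
  od g L s x 0 + 2 * (od g L s x 1 + 2 * (od g L s x 2 + 2 * od g L s x 3))

theorem KK_pos (L : List ℤ) : 0 < KK L := by unfold KK CC; omega

theorem nst_pos (g : ℕ) (L : List ℤ) : 0 < nst g L :=
  Nat.mul_pos (Nat.succ_pos g) (Nat.pow_pos (KK_pos L))

theorem radix_lt {G K i a b c d : ℕ} (hi : i < G) (ha : a < K) (hb : b < K) (hc : c < K)
    (hd : d < K) : i + G * (a + K * (b + K * (c + K * d))) < G * K ^ 4 := by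
  have h1 : c + K * d < K * K := by nlinarith
  have h2 : b + K * (c + K * d) < K * (K * K) := by nlinarith
  have h3 : a + K * (b + K * (c + K * d)) < K * (K * (K * K)) := by nlinarith
  have h4 : G * K ^ 4 = G * (K * (K * (K * K))) := by ring
  rw [h4]
  nlinarith

theorem tr_lt (g : ℕ) (L : List ℤ) (s x : ℕ) : tr g L s x < nst g L := by
  have hK := KK_pos L
  exact radix_lt (Nat.mod_lt _ (Nat.succ_pos g)) (Nat.mod_lt _ hK) (Nat.mod_lt _ hK)
    (Nat.mod_lt _ hK) (Nat.mod_lt _ hK)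

theorem od_lt (g : ℕ) (L : List ℤ) (s x j : ℕ) : od g L s x j < 2 := Nat.mod_lt _ (by norm_num)

theorem ou_lt (g : ℕ) (L : List ℤ) (s x : ℕ) : ou g L s x < 16 := by
  have h0 := od_lt g L s x 0
  have h1 := od_lt g L s x 1
  have h2 := od_lt g L s x 2
  have h3 := od_lt g L s x 3
  unfold ou
  omega

theorem dg_ou {g : ℕ} {L : List ℤ} {s x j : ℕ} (hj : j < 4) :
    dg (ou g L s x) j = od g L s x j := by
  have h0 := od_lt g L s x 0
  have h1 := od_lt g L s x 1
  have h2 := od_lt g L s x 2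
  have h3 := od_lt g L s x 3
  unfold dg ou
  interval_cases j <;> omega

theorem dg_ext {x y : ℕ} (hx : x < 16) (hy : y < 16) (h : ∀ j < 4, dg x j = dg y j) : x = y := by
  have h0 := h 0 (by norm_num)
  have h1 := h 1 (by norm_num)
  have h2 := h 2 (by norm_num)
  have h3 := h 3 (by norm_num)
  unfold dg at *
  omega

theorem dg_lt (x j : ℕ) : dg x j < 2 := Nat.mod_lt _ (by norm_num)

theorem ou_ou (g : ℕ) (L : List ℤ) (s : ℕ) {x : ℕ} (hx : x < 16) :
    ou g L s (ou g L s x) = x := by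
  apply dg_ext (ou_lt _ _ _ _) hx
  intro j hj
  rw [dg_ou hj, od, dg_ou hj, od]
  have := dg_lt x j
  omega

/-- The automaton. -/
def AA (g : ℕ) (L : List ℤ) : Automaton where
  m := nst g L
  n := 16
  two_le := by norm_num
  trans s x := ⟨tr g L s x, tr_lt _ _ _ _⟩
  out s := Function.Involutive.toPerm (fun x => ⟨ou g L s x, ou_lt _ _ _ _⟩)
    (fun x => Fin.ext (ou_ou g L s x.2))

theorem AA_trans (g : ℕ) (L : List ℤ) (s : Fin (nst g L)) (x : Fin 16) :
    (((AA g L).trans s x : Fin (nst g L)) : ℕ) = tr g L s x := rfl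

theorem AA_out (g : ℕ) (L : List ℤ) (s : Fin (nst g L)) (x : Fin 16) :
    (((AA g L).out s x : Fin 16) : ℕ) = ou g L s x := rfl

/-! ### The semantics -/

/-- The lattice. -/
abbrev V : Type := (ℤ × ℤ) × (ℤ × ℤ)

/-- half -/
def hf (z : V) : V := ((z.1.1 / 2, z.1.2 / 2), (z.2.1 / 2, z.2.2 / 2))

/-- first letter -/
def ltN (z : V) : ℕ :=
  (z.1.1 % 2).toNat + 2 * ((z.1.2 % 2).toNat + 2 * ((z.2.1 % 2).toNat + 2 * (z.2.2 % 2).toNat))

theorem ltN_lt (z : V) : ltN z < 16 := by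
  unfold ltN
  omega

/-- first letter -/
def lt (z : V) : Fin 16 := ⟨ltN z, ltN_lt z⟩

/-- The first digits of a vector. -/
def dig : ℕ → V → List (Fin 16)
  | 0, _ => []
  | l + 1, z => lt z :: dig l (hf z)

theorem exists_dig (w : List (Fin 16)) : ∃ z, dig w.length z = w := by
  induction w with
  | nil => exact ⟨0, rfl⟩
  | cons x w ih =>
    obtain ⟨z, hz⟩ := ih
    refine ⟨((2 * z.1.1 + dg x 0, 2 * z.1.2 + dg x 1), (2 * z.2.1 + dg x 2, 2 * z.2.2 + dg x 3)), ?_⟩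
    have h0 := dg_lt x 0
    have h1 := dg_lt x 1
    have h2 := dg_lt x 2
    have h3 := dg_lt x 3
    have e1 : hf ((2 * z.1.1 + dg x 0, 2 * z.1.2 + dg x 1),
        (2 * z.2.1 + dg x 2, 2 * z.2.2 + dg x 3)) = z := by
      unfold hf
      ext <;> simp only <;> omega
    rw [List.length_cons, dig, e1, hz]
    congr 1
    apply Fin.ext
    have hx := x.2
    simp only [lt, ltN]
    unfold dg at *
    omega

theorem ltN_eq {z z' : V} (h : ltN z = ltN z') : (z.1.1 % 2 = z'.1.1 % 2 ∧ z.1.2 % 2 = z'.1.2 % 2) ∧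
    (z.2.1 % 2 = z'.2.1 % 2 ∧ z.2.2 % 2 = z'.2.2 % 2) := by
  unfold ltN at h
  obtain ⟨⟨a, b⟩, ⟨c, d⟩⟩ := z
  obtain ⟨⟨a', b'⟩, ⟨c', d'⟩⟩ := z'
  simp only at h ⊢
  omega

theorem dvd_step {a b k : ℤ} (h : a % 2 = b % 2) (hk : k ∣ a / 2 - b / 2) : 2 * k ∣ a - b := by
  obtain ⟨c, hc⟩ := hk
  refine ⟨c, ?_⟩
  rw [mul_assoc, ← hc]
  omega

theorem dig_inj {z z' : V} (h : ∀ l, dig l z = dig l z') : z = z' := by
  have key : ∀ (l : ℕ) (z z' : V), dig l z = dig l z' →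
      ((2 : ℤ) ^ l ∣ z.1.1 - z'.1.1 ∧ (2 : ℤ) ^ l ∣ z.1.2 - z'.1.2) ∧
      ((2 : ℤ) ^ l ∣ z.2.1 - z'.2.1 ∧ (2 : ℤ) ^ l ∣ z.2.2 - z'.2.2) := by
    intro l
    induction l with
    | zero => intro z z' _; simp
    | succ l ih =>
      intro z z' hl
      rw [dig, dig, List.cons.injEq] at hl
      obtain ⟨hl1, hl2⟩ := hl
      have h2 := ih _ _ hl2
      have h1 := ltN_eq (congrArg Fin.val hl1)
      rw [pow_succ']
      exact ⟨⟨dvd_step h1.1.1 h2.1.1, dvd_step h1.1.2 h2.1.2⟩,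
        ⟨dvd_step h1.2.1 h2.2.1, dvd_step h1.2.2 h2.2.2⟩⟩
  have zero : ∀ a : ℤ, (∀ l : ℕ, (2 : ℤ) ^ l ∣ a) → a = 0 := by
    intro a ha
    by_contra h0
    obtain ⟨l, hl⟩ : ∃ l : ℕ, a.natAbs < 2 ^ l := ⟨a.natAbs, Nat.lt_two_pow_self⟩
    have h1 := Int.natAbs_dvd_natAbs.mpr (ha l)
    rw [Int.natAbs_pow] at h1
    have h2 := Nat.le_of_dvd (Int.natAbs_pos.mpr h0) h1
    simp at h2
    omega
  have a1 := zero _ (fun l => (key l z z' (h l)).1.1)
  have a2 := zero _ (fun l => (key l z z' (h l)).1.2)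
  have a3 := zero _ (fun l => (key l z z' (h l)).2.1)
  have a4 := zero _ (fun l => (key l z z' (h l)).2.2)
  ext <;> omega

/-- The compatible pairs of permutations. -/
def Comp : Subgroup (Equiv.Perm (List (Fin 16)) × Equiv.Perm V) where
  carrier := {p | ∀ l z, p.1 (dig l z) = dig l (p.2 z)}
  one_mem' := by intro l z; rfl
  mul_mem' := by
    intro p q hp hq l z
    have hp' : ∀ l z, p.1 (dig l z) = dig l (p.2 z) := hp
    have hq' : ∀ l z, q.1 (dig l z) = dig l (q.2 z) := hq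
    simp only [Prod.fst_mul, Prod.snd_mul, Equiv.Perm.mul_apply, hp', hq']
  inv_mem' := by
    intro p hp l z
    have hp' : ∀ l z, p.1 (dig l z) = dig l (p.2 z) := hp
    simp only [Prod.fst_inv, Prod.snd_inv]
    rw [Equiv.Perm.inv_eq_iff_eq, hp']
    simp

theorem comp_one {p : Equiv.Perm (List (Fin 16)) × Equiv.Perm V} (hp : p ∈ Comp) :
    p.1 = 1 ↔ p.2 = 1 := by
  have hp' : ∀ l z, p.1 (dig l z) = dig l (p.2 z) := hp
  constructor
  · intro h
    apply Equiv.ext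
    intro z
    exact (dig_inj fun l => by rw [← hp', h]; rfl)
  · intro h
    apply Equiv.ext
    intro w
    obtain ⟨z, hz⟩ := exists_dig w
    rw [← hz, hp', h]; rfl

end Pool.Agent.V5helper35.Iso
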