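import Mathlib
import Pool.Agent.V5helper35.Iso.Aff

set_option autoImplicit false

/-! The semantics of the affine automaton. -/

namespace Pool.Agent.V5helper35.Iso

theorem radix_ui (g : ℕ) (L : List ℤ) {i a b c d : ℕ} (hi : i < g + 1) (ha : a < KK L)
    (hb : b < KK L) (hc : c < KK L) (hd : d < KK L) {s : ℕ}
    (hs : s = i + (g + 1) * (a + KK L * (b + KK L * (c + KK L * d)))) :
    s % (g + 1) = i ∧ ui g L s 0 = a ∧ ui g L s 1 = b ∧ ui g L s 2 = c ∧ ui g L s 3 = d := by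
  have hK := KK_pos L
  have h1 : s % (g + 1) = i := by
    rw [hs, Nat.add_mul_mod_self_left, Nat.mod_eq_of_lt hi]
  have h2 : s / (g + 1) = a + KK L * (b + KK L * (c + KK L * d)) := by
    rw [hs, Nat.add_mul_div_left _ _ (Nat.succ_pos g), Nat.div_eq_of_lt hi, zero_add]
  have h3 : ∀ x y, x < KK L → (x + KK L * y) % KK L = x := by
    intro x y hx
    rw [Nat.add_mul_mod_self_left, Nat.mod_eq_of_lt hx]
  have h4 : ∀ x y, x < KK L → (x + KK L * y) / KK L = y := by
    intro x y hx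
    rw [Nat.add_mul_div_left _ _ hK, Nat.div_eq_of_lt hx, zero_add]
  refine ⟨h1, ?_, ?_, ?_, ?_⟩
  · rw [ui, h2, pow_zero, Nat.div_one, h3 _ _ ha]
  · rw [ui, h2, pow_one, h4 _ _ ha, h3 _ _ hb]
  · rw [ui, h2, pow_two, ← Nat.div_div_eq_div_mul, h4 _ _ ha, h4 _ _ hb, h3 _ _ hc]
  · rw [ui, h2, pow_succ, pow_two, ← Nat.div_div_eq_div_mul, ← Nat.div_div_eq_div_mul,
      h4 _ _ ha, h4 _ _ hb, h4 _ _ hc, Nat.mod_eq_of_lt hd]

theorem tr_mod (g : ℕ) (L : List ℤ) (s x : ℕ) : tr g L s x % (g + 1) = s % (g + 1) := by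
  rw [tr, Nat.add_mul_mod_self_left, Nat.mod_mod]

theorem ui_tr (g : ℕ) (L : List ℤ) (s x j : ℕ) (hj : j < 4) :
    ui g L (tr g L s x) j = nu g L s x j := by
  have hK := KK_pos L
  have h := radix_ui g L (i := s % (g + 1)) (a := nu g L s x 0) (b := nu g L s x 1)
    (c := nu g L s x 2) (d := nu g L s x 3) (Nat.mod_lt _ (Nat.succ_pos g)) (Nat.mod_lt _ hK)
    (Nat.mod_lt _ hK) (Nat.mod_lt _ hK) (Nat.mod_lt _ hK) (s := tr g L s x) rfl
  obtain ⟨-, h0, h1, h2, h3⟩ := h
  interval_cases j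
  · exact h0
  · exact h1
  · exact h2
  · exact h3

theorem ent_le (L : List ℤ) (e : ℕ) : (ent L e).natAbs ≤ (L.map Int.natAbs).sum := by
  unfold ent
  by_cases he : e < L.length
  · rw [List.getD_eq_getElem _ _ he]
    apply List.le_sum_of_mem
    exact List.mem_map_of_mem (List.getElem_mem he)
  · rw [List.getD_eq_default _ _ (by omega)]
    simp

theorem ui_lt (g : ℕ) (L : List ℤ) (s j : ℕ) : ui g L s j < KK L := Nat.mod_lt _ (KK_pos L)

theorem mul_dig_bound (a : ℤ) {r n : ℕ} (hr : r < 2) (ha : a.natAbs ≤ n) :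
    -(n : ℤ) ≤ a * r ∧ a * r ≤ n := by
  interval_cases r
  · simp
  · simp; omega

theorem vi_tr (g : ℕ) (L : List ℤ) (s x j : ℕ) (hj : j < 4) :
    vi g L (tr g L s x) j = yy g L s x j / 2 := by
  rw [vi, ui_tr g L s x j hj, nu]
  have h1 := mul_dig_bound (ent L (8 * (s % (g + 1)) + 2 * j)) (dg_lt x (j / 2 * 2))
    (ent_le L (8 * (s % (g + 1)) + 2 * j))
  have h2 := mul_dig_bound (ent L (8 * (s % (g + 1)) + 2 * j + 1)) (dg_lt x (j / 2 * 2 + 1))
    (ent_le L (8 * (s % (g + 1)) + 2 * j + 1))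
  have h3 := ui_lt g L s j
  have h4 : KK L = 2 * CC L := rfl
  have h5 : CC L = 2 * (L.map Int.natAbs).sum + 2 := rfl
  have h6 : yy g L s x j = ent L (8 * (s % (g + 1)) + 2 * j) * dg x (j / 2 * 2) +
    ent L (8 * (s % (g + 1)) + 2 * j + 1) * dg x (j / 2 * 2 + 1) +
      ((ui g L s j : ℤ) - CC L) := rfl
  generalize yy g L s x j = y at *
  generalize ent L (8 * (s % (g + 1)) + 2 * j) * (dg x (j / 2 * 2) : ℤ) = p at *
  generalize ent L (8 * (s % (g + 1)) + 2 * j + 1) * (dg x (j / 2 * 2 + 1) : ℤ) = q at *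
  rw [Nat.mod_eq_of_lt (by omega)]
  omega

/-- the translation vector of a state -/
def tv (g : ℕ) (L : List ℤ) (s : ℕ) : V :=
  ((vi g L s 0, vi g L s 1), (vi g L s 2, vi g L s 3))

/-- The list `L` contains the entries of the linear maps `T i`, which are trivial modulo two. -/
structure Codes (g : ℕ) (L : List ℤ) (T : Fin (g + 1) → (V ≃ₗ[ℤ] V)) : Prop where
  val : ∀ (i : Fin (g + 1)) (z : V), T i z =
    ((ent L (8 * i + 2 * 0) * z.1.1 + ent L (8 * i + 2 * 0 + 1) * z.1.2,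
      ent L (8 * i + 2 * 1) * z.1.1 + ent L (8 * i + 2 * 1 + 1) * z.1.2),
      (ent L (8 * i + 2 * 2) * z.2.1 + ent L (8 * i + 2 * 2 + 1) * z.2.2,
      ent L (8 * i + 2 * 3) * z.2.1 + ent L (8 * i + 2 * 3 + 1) * z.2.2))
  mod : ∀ i : Fin (g + 1),
    (ent L (8 * i + 2 * 0) % 2 = 1 ∧ ent L (8 * i + 2 * 0 + 1) % 2 = 0 ∧
      ent L (8 * i + 2 * 1) % 2 = 0 ∧ ent L (8 * i + 2 * 1 + 1) % 2 = 1) ∧
    (ent L (8 * i + 2 * 2) % 2 = 1 ∧ ent L (8 * i + 2 * 2 + 1) % 2 = 0 ∧
      ent L (8 * i + 2 * 3) % 2 = 0 ∧ ent L (8 * i + 2 * 3 + 1) % 2 = 1)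

variable {g : ℕ} {L : List ℤ} {T : Fin (g + 1) → (V ≃ₗ[ℤ] V)}

/-- the number of the linear part of a state -/
def li (g : ℕ) (s : ℕ) : Fin (g + 1) := ⟨s % (g + 1), Nat.mod_lt _ (Nat.succ_pos g)⟩

/-- the affine map of a state -/
def aff (g : ℕ) (L : List ℤ) (T : Fin (g + 1) → (V ≃ₗ[ℤ] V)) (s : ℕ) : Equiv.Perm V where
  toFun z := T (li g s) z + tv g L s
  invFun z := (T (li g s)).symm (z - tv g L s)
  left_inv z := by simp
  right_inv z := by simp

theorem aff_apply (s : ℕ) (z : V) : aff g L T s z = T (li g s) z + tv g L s := rfl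

theorem div_aux {a b x y v : ℤ} : (a * x + b * y + v) / 2 =
    a * (x / 2) + b * (y / 2) + (a * (x % 2) + b * (y % 2) + v) / 2 := by
  have h1 : a * x + b * y + v = (a * (x % 2) + b * (y % 2) + v) +
      2 * (a * (x / 2) + b * (y / 2)) := by
    have hx := Int.mul_ediv_add_emod x 2
    have hy := Int.mul_ediv_add_emod y 2
    calc a * x + b * y + v = a * (2 * (x / 2) + x % 2) + b * (2 * (y / 2) + y % 2) + v := by
          rw [hx, hy]
      _ = _ := by ring
  rw [h1, Int.add_mul_ediv_left _ _ (by norm_num)]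
  ring

theorem par_odd {a b x y v : ℤ} (ha : a % 2 = 1) (hb : b % 2 = 0) :
    (a * x + b * y + v) % 2 = (x + v) % 2 := by
  obtain ⟨c, hc⟩ : ∃ c, a = 2 * c + 1 := ⟨a / 2, by omega⟩
  obtain ⟨d, hd⟩ : ∃ d, b = 2 * d := ⟨b / 2, by omega⟩
  have : a * x + b * y + v = x + v + 2 * (c * x + d * y) := by rw [hc, hd]; ring
  rw [this, Int.add_mul_emod_self_left]

theorem par_even {a b x y v : ℤ} (ha : a % 2 = 0) (hb : b % 2 = 1) :
    (a * x + b * y + v) % 2 = (y + v) % 2 := by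
  rw [add_comm (a * x), par_odd hb ha]

theorem dg_lt0 (z : V) : (dg (ltN z) 0 : ℤ) = z.1.1 % 2 := by unfold dg ltN; simp; omega
theorem dg_lt1 (z : V) : (dg (ltN z) 1 : ℤ) = z.1.2 % 2 := by unfold dg ltN; simp; omega
theorem dg_lt2 (z : V) : (dg (ltN z) 2 : ℤ) = z.2.1 % 2 := by unfold dg ltN; simp; omega
theorem dg_lt3 (z : V) : (dg (ltN z) 3 : ℤ) = z.2.2 % 2 := by unfold dg ltN; simp; omega

theorem hf_aff (h : Codes g L T) (s : ℕ) (z : V) :
    hf (aff g L T s z) = aff g L T (tr g L s (ltN z)) (hf z) := by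
  have hli : li g (tr g L s (ltN z)) = li g s := Fin.ext (tr_mod g L s _)
  rw [aff_apply, aff_apply, hli, h.val, h.val]
  have e0 := vi_tr g L s (ltN z) 0 (by norm_num)
  have e1 := vi_tr g L s (ltN z) 1 (by norm_num)
  have e2 := vi_tr g L s (ltN z) 2 (by norm_num)
  have e3 := vi_tr g L s (ltN z) 3 (by norm_num)
  have d0 := dg_lt0 z
  have d1 := dg_lt1 z
  have d2 := dg_lt2 z
  have d3 := dg_lt3 z
  have hl : ((li g s : Fin (g + 1)) : ℕ) = s % (g + 1) := rfl
  simp only [hf, tv, e0, e1, e2, e3, yy, hl]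
  norm_num only [Nat.reduceDiv, Nat.reduceMul, Nat.reduceAdd]
  ext
  · simp only [Prod.fst_add]
    rw [d0, d1, div_aux]
  · simp only [Prod.fst_add, Prod.snd_add]
    rw [d0, d1, div_aux]
  · simp only [Prod.fst_add, Prod.snd_add]
    rw [d2, d3, div_aux]
  · simp only [Prod.snd_add]
    rw [d2, d3, div_aux]

theorem lt_aff (h : Codes g L T) (s : ℕ) (z : V) :
    ltN (aff g L T s z) = ou g L s (ltN z) := by
  apply dg_ext (ltN_lt _) (ou_lt _ _ _ _)
  intro j hj
  rw [dg_ou hj, od, aff_apply, h.val]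
  obtain ⟨⟨m0, m1, m2, m3⟩, ⟨m4, m5, m6, m7⟩⟩ := h.mod (li g s)
  have h4 : ∀ j, vi g L s j = (ui g L s j : ℤ) - CC L := fun j => rfl
  interval_cases j
  · zify
    rw [dg_lt0, dg_lt0]
    simp only [Prod.fst_add, tv]
    rw [par_odd m0 m1, h4]
    omega
  · zify
    rw [dg_lt1, dg_lt1]
    simp only [Prod.fst_add, Prod.snd_add, tv]
    rw [par_even m2 m3, h4]
    omega
  · zify
    rw [dg_lt2, dg_lt2]
    simp only [Prod.fst_add, Prod.snd_add, tv]
    rw [par_odd m4 m5, h4]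
    omega
  · zify
    rw [dg_lt3, dg_lt3]
    simp only [Prod.snd_add, tv]
    rw [par_even m6 m7, h4]
    omega

theorem perm_mem_comp (h : Codes g L T) (s : Fin (nst g L)) :
    ((AA g L).perm s, aff g L T s) ∈ Comp := by
  change ∀ l z, (AA g L).act s (dig l z) = dig l (aff g L T s z)
  intro l
  induction l generalizing s with
  | zero => intro z; rfl
  | succ l ih =>
    intro z
    have e0 : (AA g L).act s (dig (l + 1) z) = (AA g L).out s (lt z) ::
        (AA g L).act ((AA g L).trans s (lt z)) (dig l (hf z)) := rfl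
    rw [e0, dig, ih ((AA g L).trans s (lt z)) (hf z)]
    have e1 : ((AA g L).out s (lt z)) = lt (aff g L T s z) :=
      Fin.ext (lt_aff h s z).symm
    have e2 : hf (aff g L T s z) =
        aff g L T ((AA g L).trans s (lt z) : Fin (nst g L)) (hf z) := hf_aff h s z
    rw [e1, e2]
    rfl

/-- The group of affine maps. -/
def GA (g : ℕ) (L : List ℤ) (T : Fin (g + 1) → (V ≃ₗ[ℤ] V)) : Subgroup (Equiv.Perm V) :=
  Subgroup.closure (Set.range fun s : Fin (nst g L) => aff g L T s)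

/-- The automaton group, as a group of permutations of words over 16 letters. -/
def AG (g : ℕ) (L : List ℤ) : Subgroup (Equiv.Perm (List (Fin 16))) := (AA g L).group

theorem exists_group_equiv (h : Codes g L T) : Nonempty (AG g L ≃* GA g L T) := by
  classical
  let D : Subgroup (Equiv.Perm (List (Fin 16)) × Equiv.Perm V) :=
    Subgroup.closure (Set.range fun s : Fin (nst g L) => ((AA g L).perm s, aff g L T s))
  have hD : D ≤ Comp := by
    rw [Subgroup.closure_le]
    rintro _ ⟨s, rfl⟩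
    exact perm_mem_comp h s
  have h1 : D.map (MonoidHom.fst _ _) = AG g L := by
    rw [MonoidHom.map_closure, AG, Automaton.group]
    congr 1
    rw [← Set.range_comp]
    rfl
  have h2 : D.map (MonoidHom.snd _ _) = GA g L T := by
    rw [MonoidHom.map_closure, GA]
    congr 1
    rw [← Set.range_comp]
    rfl
  have i1 : Function.Injective ((MonoidHom.fst _ _).comp D.subtype :
      D →* Equiv.Perm (List (Fin 16))) := by
    rw [injective_iff_map_eq_one]
    rintro ⟨p, hp⟩ hp1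
    have hp1' : p.1 = 1 := hp1
    apply Subtype.ext
    exact Prod.ext hp1' ((comp_one (hD hp)).mp hp1')
  have i2 : Function.Injective ((MonoidHom.snd _ _).comp D.subtype :
      D →* Equiv.Perm V) := by
    rw [injective_iff_map_eq_one]
    rintro ⟨p, hp⟩ hp1
    have hp1' : p.2 = 1 := hp1
    apply Subtype.ext
    exact Prod.ext ((comp_one (hD hp)).mpr hp1') hp1'
  have r1 : ((MonoidHom.fst _ _).comp D.subtype :
      D →* Equiv.Perm (List (Fin 16))).range = AG g L := by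
    rw [MonoidHom.range_comp, Subgroup.range_subtype, h1]
  have r2 : ((MonoidHom.snd _ _).comp D.subtype :
      D →* Equiv.Perm V).range = GA g L T := by
    rw [MonoidHom.range_comp, Subgroup.range_subtype, h2]
  exact ⟨(MulEquiv.subgroupCongr r1).symm.trans ((MonoidHom.ofInjective i1).symm.trans
    ((MonoidHom.ofInjective i2).trans (MulEquiv.subgroupCongr r2)))⟩

/-! ### The full affine group -/

/-- All affine maps with linear part in a subgroup. -/
def AffG (H : Subgroup ((V ≃ₗ[ℤ] V))) : Subgroup (Equiv.Perm V) where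
  carrier := {q | ∃ h ∈ H, ∃ v, ∀ z, q z = h z + v}
  one_mem' := ⟨1, H.one_mem, 0, fun z => by simp⟩
  mul_mem' := by
    rintro p q ⟨h, hh, v, hp⟩ ⟨k, hk, u, hq⟩
    refine ⟨h * k, H.mul_mem hh hk, h u + v, fun z => ?_⟩
    rw [Equiv.Perm.mul_apply, hq, hp, map_add, LinearEquiv.mul_apply, add_assoc]
  inv_mem' := by
    rintro p ⟨h, hh, v, hp⟩
    refine ⟨h⁻¹, H.inv_mem hh, -(h⁻¹ v), fun z => ?_⟩
    rw [Equiv.Perm.inv_eq_iff_eq, hp, map_add, map_neg]
    simp

/-- translation -/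
def trn (v : V) : Equiv.Perm V := Equiv.addRight v

theorem trn_apply (v z : V) : trn v z = z + v := rfl

theorem trn_add (u v : V) : trn (u + v) = trn u * trn v := by
  apply Equiv.ext
  intro z
  rw [Equiv.Perm.mul_apply, trn_apply, trn_apply, trn_apply]
  abel

/-- the translations in a subgroup -/
def TS (G : Subgroup (Equiv.Perm V)) : AddSubgroup V where
  carrier := {v | trn v ∈ G}
  zero_mem' := by
    have : trn 0 = 1 := by apply Equiv.ext; intro z; simp [trn_apply]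
    rw [Set.mem_ofPred_eq, this]; exact G.one_mem
  add_mem' := by
    intro u v hu hv
    rw [Set.mem_ofPred_eq, trn_add]
    exact G.mul_mem hu hv
  neg_mem' := by
    intro u hu
    have : trn (-u) = (trn u)⁻¹ := by
      rw [eq_inv_iff_mul_eq_one, ← trn_add]
      apply Equiv.ext; intro z; simp [trn_apply]
    rw [Set.mem_ofPred_eq, this]; exact G.inv_mem hu

theorem top_of_basis (S : AddSubgroup V) (h1 : (((1, 0), (0, 0)) : V) ∈ S)
    (h2 : (((0, 1), (0, 0)) : V) ∈ S) (h3 : (((0, 0), (1, 0)) : V) ∈ S)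
    (h4 : (((0, 0), (0, 1)) : V) ∈ S) (v : V) : v ∈ S := by
  have : v = v.1.1 • (((1, 0), (0, 0)) : V) + v.1.2 • (((0, 1), (0, 0)) : V) +
      v.2.1 • (((0, 0), (1, 0)) : V) + v.2.2 • (((0, 0), (0, 1)) : V) := by
    ext <;> simp
  rw [this]
  exact S.add_mem (S.add_mem (S.add_mem (S.zsmul_mem h1 _) (S.zsmul_mem h2 _))
    (S.zsmul_mem h3 _)) (S.zsmul_mem h4 _)

theorem exists_state (g : ℕ) (L : List ℤ) (i : Fin (g + 1)) (v : V)
    (hv : (v.1.1.natAbs ≤ 1 ∧ v.1.2.natAbs ≤ 1) ∧ (v.2.1.natAbs ≤ 1 ∧ v.2.2.natAbs ≤ 1)) :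
    ∃ s : Fin (nst g L), li g s = i ∧ tv g L s = v := by
  have h4 : KK L = 2 * CC L := rfl
  have h5 : CC L = 2 * (L.map Int.natAbs).sum + 2 := rfl
  obtain ⟨⟨h1, h2⟩, ⟨h3, h4'⟩⟩ := hv
  have l1 : (v.1.1 + CC L).toNat < KK L := by omega
  have l2 : (v.1.2 + CC L).toNat < KK L := by omega
  have l3 : (v.2.1 + CC L).toNat < KK L := by omega
  have l4 : (v.2.2 + CC L).toNat < KK L := by omega
  have hr := radix_ui g L i.2 l1 l2 l3 l4 rfl
  refine ⟨⟨_, radix_lt i.2 l1 l2 l3 l4⟩, Fin.ext hr.1, ?_⟩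
  obtain ⟨-, e0, e1, e2, e3⟩ := hr
  unfold tv vi
  simp only [e0, e1, e2, e3]
  ext <;> simp only <;> omega

theorem GA_eq : GA g L T = AffG (Subgroup.closure (Set.range T)) := by
  apply le_antisymm
  · rw [GA, Subgroup.closure_le]
    rintro _ ⟨s, rfl⟩
    exact ⟨T (li g s), Subgroup.subset_closure ⟨_, rfl⟩, tv g L s, fun z => rfl⟩
  · have hs : ∀ s : Fin (nst g L), aff g L T s ∈ GA g L T := fun s =>
      Subgroup.subset_closure ⟨s, rfl⟩
    -- translations
    have ht : ∀ v : V, ((v.1.1.natAbs ≤ 1 ∧ v.1.2.natAbs ≤ 1) ∧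
        (v.2.1.natAbs ≤ 1 ∧ v.2.2.natAbs ≤ 1)) → trn v ∈ GA g L T := by
      intro v hv
      obtain ⟨s, hs1, hs2⟩ := exists_state g L 0 v hv
      obtain ⟨s', hs1', hs2'⟩ := exists_state g L 0 0 (by simp)
      have : trn v = aff g L T s * (aff g L T s')⁻¹ := by
        rw [eq_mul_inv_iff_mul_eq]
        apply Equiv.ext
        intro z
        rw [Equiv.Perm.mul_apply, trn_apply, aff_apply, aff_apply, hs1, hs1', hs2, hs2', add_zero]
      rw [this]
      exact (GA g L T).mul_mem (hs s) ((GA g L T).inv_mem (hs s'))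
    have htop : ∀ v : V, trn v ∈ GA g L T :=
      top_of_basis (TS (GA g L T)) (ht _ (by simp)) (ht _ (by simp)) (ht _ (by simp))
        (ht _ (by simp))
    -- linear maps
    have hlin : ∀ h ∈ Subgroup.closure (Set.range T), ∃ q ∈ GA g L T, ∀ z, q z = h z := by
      intro h hh
      induction hh using Subgroup.closure_induction with
      | mem h hh =>
        obtain ⟨i, rfl⟩ := hh
        obtain ⟨s, hs1, hs2⟩ := exists_state g L i 0 (by simp)
        refine ⟨_, hs s, fun z => ?_⟩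
        rw [aff_apply, hs1, hs2, add_zero]
      | one => exact ⟨1, (GA g L T).one_mem, fun z => rfl⟩
      | mul a b _ _ ha hb =>
        obtain ⟨p, hp, hp'⟩ := ha
        obtain ⟨q, hq, hq'⟩ := hb
        refine ⟨p * q, (GA g L T).mul_mem hp hq, fun z => ?_⟩
        rw [Equiv.Perm.mul_apply, hq', hp', LinearEquiv.mul_apply]
      | inv a _ ha =>
        obtain ⟨p, hp, hp'⟩ := ha
        refine ⟨p⁻¹, (GA g L T).inv_mem hp, fun z => ?_⟩
        rw [Equiv.Perm.inv_eq_iff_eq, hp']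
        simp
    rintro q ⟨h, hh, v, hq⟩
    obtain ⟨p, hp, hp'⟩ := hlin h hh
    have : q = trn v * p := by
      apply Equiv.ext
      intro z
      rw [Equiv.Perm.mul_apply, trn_apply, hp', hq]
    rw [this]
    exact (GA g L T).mul_mem (htop v) hp

end Pool.Agent.V5helper35.Iso
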