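import Mathlib
import Pool.Agent.V5helper35.Iso.Sem

set_option autoImplicit false

/-! The code of the affine automaton is primitive recursive. -/

namespace Pool.Agent.V5helper35.Iso

open Pool.Agent.Helper425_zc

/-- the code of the affine automaton -/
def codeF (g : ℕ) (L : List ℤ) : ℕ × List (List (ℕ × ℕ)) :=
  (16, (List.range (nst g L)).map fun s => (List.range 16).map fun x => (tr g L s x, ou g L s x))

theorem ofFn_eq {α : Type} (n : ℕ) (f : ℕ → α) :
    (List.ofFn fun i : Fin n => f i) = (List.range n).map f := by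
  apply List.ext_getElem
  · simp
  · intro i h1 h2
    simp

theorem code_AA (g : ℕ) (L : List ℤ) : (AA g L).code = codeF g L := by
  unfold Automaton.code codeF
  change ((16 : ℕ), (List.ofFn fun s : Fin (nst g L) => List.ofFn fun x : Fin 16 =>
    (tr g L s x, ou g L s x))) = _
  rw [ofFn_eq (nst g L) (fun s => List.ofFn fun x : Fin 16 => (tr g L s x, ou g L s x))]
  congr 1

variable {α : Type} [Primcodable α]

theorem prim_ent {l : α → List ℤ} {e : α → ℕ} (hl : Primrec l) (he : Primrec e) :
    Primrec fun a => ent (l a) (e a) :=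
  (Primrec.list_getD (0 : ℤ)).comp hl he

theorem prim_sumAbs : Primrec fun l : List ℤ => (l.map Int.natAbs).sum := by
  have h0 : Primrec fun l : List ℤ => l.map Int.natAbs :=
    Primrec.list_map Primrec.id (prim_natAbs.comp Primrec.snd).to₂
  have h1 : Primrec₂ fun (_ : List ℤ) (p : ℕ × ℕ) => p.1 + p.2 :=
    (Primrec.nat_add.comp (Primrec.fst.comp Primrec.snd) (Primrec.snd.comp Primrec.snd)).to₂
  have h : Primrec fun l : List ℤ => (l.map Int.natAbs).foldr (fun a b => a + b) 0 :=
    Primrec.list_foldr h0 (Primrec.const 0) h1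
  exact h.of_eq fun l => by rw [List.sum_eq_foldr]

theorem prim_CC {l : α → List ℤ} (hl : Primrec l) : Primrec fun a => CC (l a) :=
  Primrec.nat_add.comp (Primrec.nat_mul.comp (Primrec.const 2) (prim_sumAbs.comp hl))
    (Primrec.const 2)

theorem prim_KK {l : α → List ℤ} (hl : Primrec l) : Primrec fun a => KK (l a) :=
  Primrec.nat_mul.comp (Primrec.const 2) (prim_CC hl)

theorem prim_pow {f : α → ℕ} (hf : Primrec f) (j : ℕ) : Primrec fun a => f a ^ j := by
  induction j with
  | zero => exact (Primrec.const 1).of_eq fun a => (pow_zero _).symm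
  | succ j ih => exact (Primrec.nat_mul.comp ih hf).of_eq fun a => (pow_succ _ _).symm

theorem prim_nst (g : ℕ) {l : α → List ℤ} (hl : Primrec l) : Primrec fun a => nst g (l a) :=
  Primrec.nat_mul.comp (Primrec.const _) (prim_pow (prim_KK hl) 4)

theorem prim_ui (g : ℕ) {l : α → List ℤ} {s : α → ℕ} (hl : Primrec l) (hs : Primrec s) (j : ℕ) :
    Primrec fun a => ui g (l a) (s a) j :=
  Primrec.nat_mod.comp (Primrec.nat_div.comp (Primrec.nat_div.comp hs (Primrec.const _))
    (prim_pow (prim_KK hl) j)) (prim_KK hl)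

theorem prim_vi (g : ℕ) {l : α → List ℤ} {s : α → ℕ} (hl : Primrec l) (hs : Primrec s) (j : ℕ) :
    Primrec fun a => vi g (l a) (s a) j :=
  psub (prim_natCast.comp (prim_ui g hl hs j)) (prim_natCast.comp (prim_CC hl))

theorem prim_dg {x : α → ℕ} (hx : Primrec x) (j : ℕ) : Primrec fun a => dg (x a) j :=
  Primrec.nat_mod.comp (Primrec.nat_div.comp hx (Primrec.const _)) (Primrec.const _)

theorem prim_yy (g : ℕ) {l : α → List ℤ} {s x : α → ℕ} (hl : Primrec l) (hs : Primrec s)
    (hx : Primrec x) (j : ℕ) : Primrec fun a => yy g (l a) (s a) (x a) j := by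
  have h1 : Primrec fun a => 8 * (s a % (g + 1)) + 2 * j :=
    Primrec.nat_add.comp (Primrec.nat_mul.comp (Primrec.const 8)
      (Primrec.nat_mod.comp hs (Primrec.const _))) (Primrec.const _)
  exact padd (padd (pmul (prim_ent hl h1) (prim_natCast.comp (prim_dg hx _)))
    (pmul (prim_ent hl (Primrec.nat_add.comp h1 (Primrec.const 1)))
      (prim_natCast.comp (prim_dg hx _)))) (prim_vi g hl hs j)

theorem prim_half : Primrec fun z : ℤ => z / 2 := by
  have h1 : Primrec fun z : ℤ => ((z.toNat / 2 : ℕ) : ℤ) - (((-z).toNat + 1) / 2 : ℕ) :=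
    prim_natSub.comp (Primrec.nat_div.comp prim_toNat (Primrec.const 2))
      (Primrec.nat_div.comp (Primrec.nat_add.comp prim_toNat_neg (Primrec.const 1))
        (Primrec.const 2))
  exact h1.of_eq fun z => by omega

theorem prim_nu (g : ℕ) {l : α → List ℤ} {s x : α → ℕ} (hl : Primrec l) (hs : Primrec s)
    (hx : Primrec x) (j : ℕ) : Primrec fun a => nu g (l a) (s a) (x a) j :=
  Primrec.nat_mod.comp (prim_toNat.comp (padd (prim_half.comp (prim_yy g hl hs hx j))
    (prim_natCast.comp (prim_CC hl)))) (prim_KK hl)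

theorem prim_tr (g : ℕ) {l : α → List ℤ} {s x : α → ℕ} (hl : Primrec l) (hs : Primrec s)
    (hx : Primrec x) : Primrec fun a => tr g (l a) (s a) (x a) := by
  have hK := prim_KK hl
  have hn := prim_nu g hl hs hx
  exact Primrec.nat_add.comp (Primrec.nat_mod.comp hs (Primrec.const _))
    (Primrec.nat_mul.comp (Primrec.const _) (Primrec.nat_add.comp (hn 0)
      (Primrec.nat_mul.comp hK (Primrec.nat_add.comp (hn 1)
        (Primrec.nat_mul.comp hK (Primrec.nat_add.comp (hn 2)
          (Primrec.nat_mul.comp hK (hn 3))))))))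

theorem prim_od (g : ℕ) {l : α → List ℤ} {s x : α → ℕ} (hl : Primrec l) (hs : Primrec s)
    (hx : Primrec x) (j : ℕ) : Primrec fun a => od g (l a) (s a) (x a) j :=
  Primrec.nat_mod.comp (Primrec.nat_add.comp (Primrec.nat_add.comp (prim_dg hx j)
    (prim_ui g hl hs j)) (prim_CC hl)) (Primrec.const _)

theorem prim_ou (g : ℕ) {l : α → List ℤ} {s x : α → ℕ} (hl : Primrec l) (hs : Primrec s)
    (hx : Primrec x) : Primrec fun a => ou g (l a) (s a) (x a) := by
  have hn := prim_od g hl hs hx
  have h2 : Primrec fun _ : α => 2 := Primrec.const 2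
  exact Primrec.nat_add.comp (hn 0)
      (Primrec.nat_mul.comp h2 (Primrec.nat_add.comp (hn 1)
        (Primrec.nat_mul.comp h2 (Primrec.nat_add.comp (hn 2)
          (Primrec.nat_mul.comp h2 (hn 3))))))

theorem prim_codeF (g : ℕ) : Primrec (codeF g) := by
  apply Primrec.pair (Primrec.const 16)
  apply Primrec.list_map (Primrec.list_range.comp (prim_nst g Primrec.id))
  apply Primrec.list_map (Primrec.const (List.range 16))
  have hl : Primrec fun a : (List ℤ × ℕ) × ℕ => a.1.1 := Primrec.fst.comp Primrec.fst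
  have hs : Primrec fun a : (List ℤ × ℕ) × ℕ => a.1.2 := Primrec.snd.comp Primrec.fst
  have hx : Primrec fun a : (List ℤ × ℕ) × ℕ => a.2 := Primrec.snd
  exact (Primrec.pair (prim_tr g hl hs hx) (prim_ou g hl hs hx)).to₂

end Pool.Agent.V5helper35.Iso
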