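import Mathlib
import Pool.Agent.V5helper35.Iso.Cmp
import Pool.Agent.Helper270.PP
import Pool.Agent.Helper270.FIN

set_option autoImplicit false

/-! The linear groups. -/

namespace Pool.Agent.V5helper35.Iso

open Pool.Agent.Helper270.Red

/-- the plane -/
abbrev W : Type := ℤ × ℤ

/-- a multiplicative automorphism as a linear automorphism -/
def toLin : MulAut (Multiplicative W) →* (W ≃ₗ[ℤ] W) where
  toFun f := AddEquiv.toIntLinearEquiv
    { toFun := fun p => (f (Multiplicative.ofAdd p)).toAdd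
      invFun := fun p => (f.symm (Multiplicative.ofAdd p)).toAdd
      left_inv := fun p => by simp
      right_inv := fun p => by simp
      map_add' := fun p q => by simp [ofAdd_add] }
  map_one' := by
    apply LinearEquiv.ext
    intro p
    rfl
  map_mul' a b := by
    apply LinearEquiv.ext
    intro p
    rfl

variable {m : ℕ}

/-- numbering of the generators -/
def idx (i : I m) : ℤ := (Encodable.encode i : ℤ)

theorem idx_inj : Function.Injective (idx (m := m)) := by
  intro i j h
  unfold idx at h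
  exact Encodable.encode_injective (by exact_mod_cast h)

/-- the linear representation of the free group -/
def rl : F m →* (W ≃ₗ[ℤ] W) := toLin.comp (Helper270.PP.rep idx)

theorem rl_apply (a : F m) (p : W) :
    rl a p = (Helper270.PP.rep idx a (Multiplicative.ofAdd p)).toAdd := rfl

theorem rl_faithful {a : F m} (h : ∀ p, rl a p = p) : a = 1 := by
  apply Helper270.PP.rep_faithful idx_inj
  apply Multiplicative.toAdd.injective
  exact h (1, 0)

/-- the action of a letter -/
def stp (x : I m × Bool) (p : W) : W :=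
  (p.1 - 2 * (idx x.1 * p.2) + 2 * (idx x.1 * (p.2 + 2 * Helper270.PP.sg x.2 *
    (p.1 - 2 * (idx x.1 * p.2)))), p.2 + 2 * Helper270.PP.sg x.2 * (p.1 - 2 * (idx x.1 * p.2)))

/-- the action of a word -/
def wact (w : List (I m × Bool)) (p : W) : W := w.foldr stp p

theorem rl_mk (w : List (I m × Bool)) (p : W) : rl (FreeGroup.mk w) p = wact w p := by
  induction w with
  | nil =>
    have : (FreeGroup.mk [] : F m) = 1 := rfl
    rw [this, map_one]; rfl
  | cons x w ih =>
    obtain ⟨i, b⟩ := x
    have h2 : (FreeGroup.mk ((i, b) :: w) : F m) = FreeGroup.mk [(i, b)] * FreeGroup.mk w := by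
      rw [FreeGroup.mul_mk]; rfl
    rw [h2, map_mul, LinearEquiv.mul_apply, ih, rl_apply, Helper270.PP.rep_letter]
    rfl

theorem wact_mod (w : List (I m × Bool)) (p : W) :
    (wact w p).1 % 2 = p.1 % 2 ∧ (wact w p).2 % 2 = p.2 % 2 := by
  induction w with
  | nil => exact ⟨rfl, rfl⟩
  | cons x w ih =>
    have : wact (x :: w) p = stp x (wact w p) := rfl
    rw [this]
    generalize wact w p = q at *
    unfold stp
    simp only
    constructor
    · rw [← ih.1]
      generalize idx x.1 * q.2 = t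
      generalize idx x.1 * (q.2 + 2 * Helper270.PP.sg x.2 * (q.1 - 2 * t)) = u
      omega
    · rw [← ih.2, mul_assoc]
      generalize Helper270.PP.sg x.2 * (q.1 - 2 * (idx x.1 * q.2)) = u
      omega

theorem rl_mod (a : F m) (p : W) : (rl a p).1 % 2 = p.1 % 2 ∧ (rl a p).2 % 2 = p.2 % 2 := by
  obtain ⟨w, rfl⟩ := Quot.exists_rep a
  have h := rl_mk w p
  have h' : rl (Quot.mk _ w) p = wact w p := h
  rw [h']
  exact wact_mod w p

/-- The big group. -/
abbrev P (m : ℕ) : Type := F m × F m × ℤˣ

/-- The linear representation of the big group. -/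
def Phi : P m →* (V ≃ₗ[ℤ] V) where
  toFun x := AddEquiv.toIntLinearEquiv
    { toFun := fun z => (rl x.1 z.1, (x.2.2 : ℤ) • rl x.2.1 z.2)
      invFun := fun z => ((rl x.1).symm z.1, (x.2.2 : ℤ) • (rl x.2.1).symm z.2)
      left_inv := fun z => by
        obtain ⟨a, b, e⟩ := x
        rcases Int.units_eq_one_or e with rfl | rfl <;> simp
      right_inv := fun z => by
        obtain ⟨a, b, e⟩ := x
        rcases Int.units_eq_one_or e with rfl | rfl <;> simp
      map_add' := fun z y => by simp }
  map_one' := by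
    apply LinearEquiv.ext
    intro z
    ext <;> simp
  map_mul' x y := by
    apply LinearEquiv.ext
    intro z
    obtain ⟨a, b, e⟩ := x
    obtain ⟨c, d, f⟩ := y
    rcases Int.units_eq_one_or e with rfl | rfl <;>
      rcases Int.units_eq_one_or f with rfl | rfl <;> ext <;> simp

theorem Phi_apply (x : P m) (z : V) :
    Phi x z = (rl x.1 z.1, (x.2.2 : ℤ) • rl x.2.1 z.2) := rfl

theorem Phi_inj : Function.Injective (Phi (m := m)) := by
  rw [injective_iff_map_eq_one]
  rintro ⟨a, b, e⟩ h
  have h1 : ∀ z : V, Phi (a, b, e) z = z := fun z => by rw [h]; rfl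
  have ha : a = 1 := by
    apply rl_faithful
    intro p
    exact congrArg Prod.fst (h1 (p, 0))
  have hb2 : b ^ 2 = 1 := by
    apply rl_faithful
    intro p
    have h2 : ∀ p, (e : ℤ) • rl b p = p := fun p => congrArg Prod.snd (h1 (0, p))
    have h3 := h2 ((e : ℤ) • rl b p)
    rw [h2 p] at h3
    rw [pow_two, map_mul, LinearEquiv.mul_apply]
    rcases Int.units_eq_one_or e with rfl | rfl
    · have h4 : ∀ p, rl b p = p := fun p => by simpa using h2 p
      rw [h4, h4]
    · have h4 : ∀ p, rl b p = -p := fun p => by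
        have := h2 p
        simp only [Units.val_neg, Units.val_one, neg_smul, one_smul] at this
        exact neg_eq_iff_eq_neg.mp this
      rw [h4, h4, neg_neg]
  have hb : b = 1 := by
    have := pow_left_injective (M := F m) (n := 2) (by norm_num)
    exact this (by simpa using hb2)
  have he : e = 1 := by
    have h2 := congrArg (fun z : V => z.2.1) (h1 (0, (1, 0)))
    simp only [Phi_apply, hb, map_one] at h2
    rcases Int.units_eq_one_or e with rfl | rfl
    · rfl
    · simp at h2
  rw [ha, hb, he]; rfl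

section Gens

variable (R : Finset (FreeGroup (Fin m)))

/-- the last generator -/
def zw (w : List (Fin m × Bool)) : P m := (1, rho (FreeGroup.mk w), -1)

/-- the fixed generators -/
noncomputable def fx : List (P m) :=
  ((Finset.univ : Finset (I m)).toList.map fun i => (FreeGroup.of i, FreeGroup.of i, 1)) ++
    (R.toList.map fun r => ((1 : F m), em r, (1 : ℤˣ)))

/-- the group -/
def Mw (w : List (Fin m × Bool)) : Subgroup (P m) :=
  Subgroup.closure {x | x ∈ zw w :: fx R}

theorem mem_fx {x : P m} : x ∈ fx R ↔ (∃ i : I m, x = (FreeGroup.of i, FreeGroup.of i, 1)) ∨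
    ∃ r ∈ R, x = (1, em r, 1) := by
  unfold fx
  simp only [List.mem_append, List.mem_map, Finset.mem_toList, Finset.mem_univ, true_and]
  constructor
  · rintro (⟨i, rfl⟩ | ⟨r, hr, rfl⟩)
    · exact Or.inl ⟨i, rfl⟩
    · exact Or.inr ⟨r, hr, rfl⟩
  · rintro (⟨i, rfl⟩ | ⟨r, hr, rfl⟩)
    · exact Or.inl ⟨i, rfl⟩
    · exact Or.inr ⟨r, hr, rfl⟩

/-- the subgroup generated by the fixed generators -/
def M0 : Subgroup (P m) := Subgroup.closure {x | x ∈ fx R}

theorem diag_mem0 (f : F m) : ((f, f, 1) : P m) ∈ M0 R := by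
  let φ : F m →* P m := (MonoidHom.id _).prod ((MonoidHom.id _).prod 1)
  have : φ.range ≤ M0 R := by
    rw [MonoidHom.range_eq_map, ← FreeGroup.closure_range_of, MonoidHom.map_closure,
      Subgroup.closure_le]
    rintro _ ⟨_, ⟨i, rfl⟩, rfl⟩
    exact Subgroup.subset_closure ((mem_fx R).mpr (Or.inl ⟨i, rfl⟩))
  exact this ⟨f, rfl⟩

theorem snd_mem0 {w : FreeGroup (Fin m)}
    (hw : w ∈ Subgroup.normalClosure (R : Set (FreeGroup (Fin m)))) :
    ((1, rho w, 1) : P m) ∈ M0 R := by
  let ψ : F m →* P m := (1 : F m →* F m).prod ((MonoidHom.id _).prod 1)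
  have hψ : ∀ x, ψ x = (1, x, 1) := fun x => rfl
  let K : Subgroup (F m) := (M0 R).comap ψ
  have hK : K.Normal := by
    refine ⟨fun n hn g => ?_⟩
    have h1 : ((1, n, 1) : P m) ∈ M0 R := hn
    have h2 := (M0 R).mul_mem ((M0 R).mul_mem (diag_mem0 R g) h1)
      ((M0 R).inv_mem (diag_mem0 R g))
    change ((1, g * n * g⁻¹, 1) : P m) ∈ M0 R
    have h3 : ((1, g * n * g⁻¹, 1) : P m) = (g, g, 1) * (1, n, 1) * (g, g, 1)⁻¹ := by
      ext <;> simp
    rw [h3]; exact h2
  have h1 : Subgroup.normalClosure (R : Set (FreeGroup (Fin m))) ≤ K.comap em := by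
    have : (K.comap em).Normal := hK.comap em
    apply Subgroup.normalClosure_le_normal
    intro r hr
    exact Subgroup.subset_closure ((mem_fx R).mpr (Or.inr ⟨r, hr, rfl⟩))
  have h2 : em w ∈ K := h1 hw
  have hcm : ∀ a ∈ K, ∀ b, Helper270.Red.comm a b ∈ K := by
    intro a ha b
    have : Helper270.Red.comm a b = a * (b * a⁻¹ * b⁻¹) := by
      simp [Helper270.Red.comm, mul_assoc]
    rw [this]
    exact K.mul_mem ha (hK.conj_mem _ (K.inv_mem ha) b)
  exact hcm _ (hcm _ h2 _) _

/-- the element of order two -/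
def zz : P m := (1, 1, -1)

theorem Mw_eq {w : List (Fin m × Bool)}
    (hw : FreeGroup.mk w ∈ Subgroup.normalClosure (R : Set (FreeGroup (Fin m)))) :
    Mw R w = Subgroup.closure {x | x ∈ zz :: fx R} := by
  have h0 := snd_mem0 R hw
  have e1 : zw w = (1, rho (FreeGroup.mk w), 1) * zz := by
    unfold zw zz; ext <;> simp
  have e2 : (zz : P m) = (1, rho (FreeGroup.mk w), 1)⁻¹ * zw w := by
    rw [e1, inv_mul_cancel_left]
  apply le_antisymm
  · rw [Mw, Subgroup.closure_le]
    intro x hx
    rcases List.mem_cons.mp hx with rfl | hx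
    · rw [e1]
      refine Subgroup.mul_mem _ ?_ (Subgroup.subset_closure (List.mem_cons_self))
      exact Subgroup.closure_mono (fun y hy => List.mem_cons_of_mem _ hy) h0
    · exact Subgroup.subset_closure (List.mem_cons_of_mem _ hx)
  · rw [Subgroup.closure_le]
    intro x hx
    rcases List.mem_cons.mp hx with rfl | hx
    · rw [e2]
      refine Subgroup.mul_mem _ (Subgroup.inv_mem _ ?_) (Subgroup.subset_closure (List.mem_cons_self))
      exact Subgroup.closure_mono (fun y hy => List.mem_cons_of_mem _ hy) h0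
    · exact Subgroup.subset_closure (List.mem_cons_of_mem _ hx)

theorem exists_th {w : List (Fin m × Bool)}
    (hw : FreeGroup.mk w ∉ Subgroup.normalClosure (R : Set (FreeGroup (Fin m)))) {x : P m}
    (hx : x ∈ Mw R w) : ∃ n : ℤ, rep (R : Set (FreeGroup (Fin m))) x.2.1 =
      rep (R : Set (FreeGroup (Fin m))) x.1 * pC (R : Set (FreeGroup (Fin m))) n ∧
        x.2.2 = (-1) ^ n := by
  set R' : Set (FreeGroup (Fin m)) := (R : Set (FreeGroup (Fin m))) with hR'
  induction hx using Subgroup.closure_induction with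
  | mem x hx =>
    rcases List.mem_cons.mp hx with rfl | hx
    · exact ⟨1, by simp [zw, rep_rho R' hw], by simp [zw]⟩
    · rcases (mem_fx R).mp hx with ⟨i, rfl⟩ | ⟨r, hr, rfl⟩
      · exact ⟨0, by simp [pC_zero], by simp⟩
      · exact ⟨0, by simp [pC_zero, rep_rel R' (Finset.mem_coe.mpr hr)], by simp⟩
  | one => exact ⟨0, by simp [pC_zero], by simp⟩
  | mul a b _ _ ha hb =>
    obtain ⟨n, hn, hn'⟩ := ha
    obtain ⟨k, hk, hk'⟩ := hb
    refine ⟨n + k, ?_, ?_⟩
    · have e1 : (a * b).2.1 = a.2.1 * b.2.1 := rfl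
      have e2 : (a * b).1 = a.1 * b.1 := rfl
      rw [e1, e2, map_mul, map_mul, hn, hk, pC_add, mul_assoc, mul_assoc]
      congr 1
      rw [← mul_assoc, (rep_comm R' b.1 n).eq, mul_assoc]
    · have e1 : (a * b).2.2 = a.2.2 * b.2.2 := rfl
      rw [e1, hn', hk', zpow_add]
  | inv a _ ha =>
    obtain ⟨n, hn, hn'⟩ := ha
    refine ⟨-n, ?_, ?_⟩
    · have h1 : pC R' (-n) = (pC R' n)⁻¹ := by
        rw [eq_inv_iff_mul_eq_one, ← pC_add, neg_add_cancel, pC_zero]
      have e1 : (a⁻¹).2.1 = (a.2.1)⁻¹ := rfl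
      have e2 : (a⁻¹).1 = (a.1)⁻¹ := rfl
      rw [e1, e2, map_inv, map_inv, hn, mul_inv_rev, h1, ((rep_comm R' a.1 n).inv_inv).eq]
    · have e1 : (a⁻¹).2.2 = (a.2.2)⁻¹ := rfl
      rw [e1, hn', zpow_neg]

theorem tf_Mw {w : List (Fin m × Bool)}
    (hw : FreeGroup.mk w ∉ Subgroup.normalClosure (R : Set (FreeGroup (Fin m)))) {x : P m}
    (hx : x ∈ Mw R w) {k : ℕ} (hk : k ≠ 0) (h : x ^ k = 1) : x = 1 := by
  obtain ⟨a, b, e⟩ := x
  have ha : a = 1 := by
    have h1 : a ^ k = 1 := congrArg Prod.fst h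
    exact pow_left_injective (M := F m) hk (by simpa using h1)
  have hb : b = 1 := by
    have h1 : b ^ k = 1 := congrArg (fun y : P m => y.2.1) h
    exact pow_left_injective (M := F m) hk (by simpa using h1)
  obtain ⟨n, hn, hn'⟩ := exists_th R hw hx
  simp only [ha, hb, map_one, one_mul] at hn
  rw [← pC_zero] at hn
  have h0 := pC_inj hn
  simp only [← h0, zpow_zero] at hn'
  rw [ha, hb, hn']; rfl

end Gens

end Pool.Agent.V5helper35.Iso
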