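import Mathlib
import Pool.Agent.V5helper35.Iso.Alg

set_option autoImplicit false

/-! Undecidability of the isomorphism problem. -/

namespace Pool.Agent.V5helper35.Iso

open Pool.Agent.Helper270.Red

variable {m : ℕ}

/-- the entries of a block diagonal map -/
def ents (T : V ≃ₗ[ℤ] V) : List ℤ :=
  [(T ((1, 0), (0, 0))).1.1, (T ((0, 1), (0, 0))).1.1, (T ((1, 0), (0, 0))).1.2,
    (T ((0, 1), (0, 0))).1.2, (T ((0, 0), (1, 0))).2.1, (T ((0, 0), (0, 1))).2.1,
    (T ((0, 0), (1, 0))).2.2, (T ((0, 0), (0, 1))).2.2]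

theorem ents_length (T : V ≃ₗ[ℤ] V) : (ents T).length = 8 := rfl

/-- all the entries -/
def allEnts (l : List (V ≃ₗ[ℤ] V)) : List ℤ := l.flatMap ents

theorem ent_allEnts (l : List (V ≃ₗ[ℤ] V)) (i : ℕ) (hi : i < l.length) (e : ℕ) (he : e < 8) :
    ent (allEnts l) (8 * i + e) = (ents l[i]).getD e 0 := by
  induction l generalizing i with
  | nil => simp at hi
  | cons T l ih =>
    rw [allEnts, List.flatMap_cons, ent]
    cases i with
    | zero =>
      rw [List.getD_append _ _ _ _ (by rw [ents_length]; omega)]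
      simp
    | succ i =>
      rw [List.getD_append_right _ _ _ _ (by rw [ents_length]; omega), ents_length]
      have h1 : 8 * (i + 1) + e - 8 = 8 * i + e := by omega
      rw [h1]
      have := ih i (by simpa using hi)
      rw [ent, allEnts] at this
      rw [this]
      simp

theorem wlin (f : W ≃ₗ[ℤ] W) (p : W) : f p =
    ((f (1, 0)).1 * p.1 + (f (0, 1)).1 * p.2, (f (1, 0)).2 * p.1 + (f (0, 1)).2 * p.2) := by
  have h : p = p.1 • ((1, 0) : W) + p.2 • ((0, 1) : W) := by ext <;> simp
  conv_lhs => rw [h, map_add, map_smul, map_smul]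
  ext
  · simp [mul_comm]
  · simp [mul_comm]

theorem codes_of_list (l : List (P m)) {g : ℕ} (hg : g + 1 = l.length)
    (T : Fin (g + 1) → (V ≃ₗ[ℤ] V)) (hT : ∀ i : Fin (g + 1), T i = Phi (l[(i : ℕ)]'(hg ▸ i.2))) :
    Codes g (allEnts (l.map Phi)) T := by
  have key : ∀ (i : Fin (g + 1)) (e : ℕ), e < 8 →
      ent (allEnts (l.map Phi)) (8 * i + e) = (ents (T i)).getD e 0 := by
    intro i e he
    have hi : (i : ℕ) < (l.map Phi).length := by rw [List.length_map, ← hg]; exact i.2
    rw [ent_allEnts _ _ hi e he, hT]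
    simp
  constructor
  · intro i z
    have k0 := key i (2 * 0) (by norm_num)
    have k1 := key i (2 * 0 + 1) (by norm_num)
    have k2 := key i (2 * 1) (by norm_num)
    have k3 := key i (2 * 1 + 1) (by norm_num)
    have k4 := key i (2 * 2) (by norm_num)
    have k5 := key i (2 * 2 + 1) (by norm_num)
    have k6 := key i (2 * 3) (by norm_num)
    have k7 := key i (2 * 3 + 1) (by norm_num)
    simp only [← add_assoc] at k1 k3 k5 k7
    rw [k0, k1, k2, k3, k4, k5, k6, k7, hT]
    obtain ⟨a, b, ε⟩ := l[(i : ℕ)]'(hg ▸ i.2)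
    simp only [ents, Phi_apply]
    rw [wlin (rl a) z.1, wlin (rl b) z.2]
    ext
    · simp
    · simp
    · simp; ring
    · simp; ring
  · intro i
    have k0 := key i (2 * 0) (by norm_num)
    have k1 := key i (2 * 0 + 1) (by norm_num)
    have k2 := key i (2 * 1) (by norm_num)
    have k3 := key i (2 * 1 + 1) (by norm_num)
    have k4 := key i (2 * 2) (by norm_num)
    have k5 := key i (2 * 2 + 1) (by norm_num)
    have k6 := key i (2 * 3) (by norm_num)
    have k7 := key i (2 * 3 + 1) (by norm_num)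
    simp only [← add_assoc] at k1 k3 k5 k7
    rw [k0, k1, k2, k3, k4, k5, k6, k7, hT]
    obtain ⟨a, b, ε⟩ := l[(i : ℕ)]'(hg ▸ i.2)
    simp only [ents, Phi_apply]
    have a1 := rl_mod a (1, 0)
    have a2 := rl_mod a (0, 1)
    have b1 := rl_mod b (1, 0)
    have b2 := rl_mod b (0, 1)
    rcases Int.units_eq_one_or ε with rfl | rfl
    · simp only [Units.val_one, one_smul]
      simp
      omega
    · simp only [Units.val_neg, Units.val_one, neg_smul, one_smul]
      simp
      omega

/-- the entries for a word -/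
def lst (c : List ℤ) (w : List (Fin m × Bool)) : List ℤ :=
  [1, 0, 0, 1, -(wact (Helper270.FIN.rw' w) (1, 0)).1, -(wact (Helper270.FIN.rw' w) (0, 1)).1,
    -(wact (Helper270.FIN.rw' w) (1, 0)).2, -(wact (Helper270.FIN.rw' w) (0, 1)).2] ++ c

theorem lst_eq (R : Finset (FreeGroup (Fin m))) (w : List (Fin m × Bool)) :
    allEnts ((zw w :: fx R).map Phi) = lst (allEnts ((fx R).map Phi)) w := by
  rw [List.map_cons, allEnts, List.flatMap_cons, lst]
  congr 1
  unfold ents zw
  simp only [Phi_apply, map_one, ← Helper270.FIN.mk_rw, rl_mk]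
  simp

theorem prim_sg : Primrec Helper270.PP.sg := Primrec.dom_bool _

open Pool.Agent.Helper425_zc in
theorem prim_stp : Primrec₂ (stp (m := m)) := by
  have hk : Primrec fun a : (I m × Bool) × W => idx a.1.1 :=
    prim_natCast.comp (Primrec.encode.comp (Primrec.fst.comp Primrec.fst))
  have hs : Primrec fun a : (I m × Bool) × W => Helper270.PP.sg a.1.2 :=
    prim_sg.comp (Primrec.snd.comp Primrec.fst)
  have hx : Primrec fun a : (I m × Bool) × W => a.2.1 := Primrec.fst.comp Primrec.snd
  have hy : Primrec fun a : (I m × Bool) × W => a.2.2 := Primrec.snd.comp Primrec.snd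
  have h2 : Primrec fun _ : (I m × Bool) × W => (2 : ℤ) := Primrec.const 2
  have hu := psub hx (pmul h2 (pmul hk hy))
  have hv := padd hy (pmul (pmul h2 hs) hu)
  exact Primrec.pair (padd hu (pmul h2 (pmul hk hv))) hv

theorem prim_wact (p : W) : Primrec fun w : List (I m × Bool) => wact w p := by
  have h : Primrec₂ fun (_ : List (I m × Bool)) (x : (I m × Bool) × W) => stp x.1 x.2 :=
    (prim_stp.comp (Primrec.fst.comp Primrec.snd) (Primrec.snd.comp Primrec.snd)).to₂
  exact Primrec.list_foldr Primrec.id (Primrec.const p) h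

open Pool.Agent.Helper425_zc in
theorem prim_lst (c : List ℤ) : Primrec (lst (m := m) c) := by
  have h1 : ∀ p : W, Primrec fun w : List (Fin m × Bool) => wact (Helper270.FIN.rw' w) p :=
    fun p => (prim_wact p).comp Helper270.FIN.rw_primrec
  have f1 := pneg (Primrec.fst.comp (h1 (1, 0)))
  have f2 := pneg (Primrec.fst.comp (h1 (0, 1)))
  have f3 := pneg (Primrec.snd.comp (h1 (1, 0)))
  have f4 := pneg (Primrec.snd.comp (h1 (0, 1)))
  apply Primrec.list_append.comp _ (Primrec.const c)
  exact Primrec.list_cons.comp (Primrec.const 1) (Primrec.list_cons.comp (Primrec.const 0)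
    (Primrec.list_cons.comp (Primrec.const 0) (Primrec.list_cons.comp (Primrec.const 1)
    (Primrec.list_cons.comp f1 (Primrec.list_cons.comp f2 (Primrec.list_cons.comp f3
    (Primrec.list_cons.comp f4 (Primrec.const []))))))))

section Main

variable (R : Finset (FreeGroup (Fin m)))

/-- number of the fixed generators -/
noncomputable def gn : ℕ := (fx R).length

/-- the generating linear maps -/
noncomputable def TT (w : List (Fin m × Bool)) (i : Fin (gn R + 1)) : V ≃ₗ[ℤ] V :=
  Phi ((zw w :: fx R)[(i : ℕ)]'(by rw [List.length_cons]; exact i.2))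

/-- the automaton of a word -/
noncomputable def Aw (w : List (Fin m × Bool)) : Automaton :=
  AA (gn R) (lst (allEnts ((fx R).map Phi)) w)

theorem closure_TT (w : List (Fin m × Bool)) :
    Subgroup.closure (Set.range (TT R w)) = (Mw R w).map Phi := by
  rw [Mw, MonoidHom.map_closure]
  congr 1
  ext T
  constructor
  · rintro ⟨i, rfl⟩
    exact ⟨_, List.getElem_mem _, rfl⟩
  · rintro ⟨x, hx, rfl⟩
    obtain ⟨i, hi, rfl⟩ := List.mem_iff_getElem.mp hx
    exact ⟨⟨i, by simpa [gn] using hi⟩, rfl⟩

theorem Aw_equiv (w : List (Fin m × Bool)) :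
    Nonempty ((Aw R w).group ≃* AffG ((Mw R w).map Phi)) := by
  have hc : Codes (gn R) (allEnts ((zw w :: fx R).map Phi)) (TT R w) :=
    codes_of_list (zw w :: fx R) (by simp [gn]) _ (fun i => rfl)
  rw [lst_eq] at hc
  obtain ⟨e⟩ := exists_group_equiv hc
  rw [GA_eq, closure_TT] at e
  exact ⟨e⟩

theorem equiv_of_mem {w w' : List (Fin m × Bool)}
    (hw : FreeGroup.mk w ∈ Subgroup.normalClosure (R : Set (FreeGroup (Fin m))))
    (hw' : FreeGroup.mk w' ∈ Subgroup.normalClosure (R : Set (FreeGroup (Fin m)))) :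
    Nonempty ((Aw R w).group ≃* (Aw R w').group) := by
  obtain ⟨e⟩ := Aw_equiv R w
  obtain ⟨e'⟩ := Aw_equiv R w'
  rw [Mw_eq R hw] at e
  rw [Mw_eq R hw'] at e'
  exact ⟨e.trans e'.symm⟩

/-- There is an element of order two. -/
theorem exists_inv {w : List (Fin m × Bool)}
    (hw : FreeGroup.mk w ∈ Subgroup.normalClosure (R : Set (FreeGroup (Fin m)))) :
    ∃ x : (Aw R w).group, x ^ 2 = 1 ∧ x ≠ 1 := by
  obtain ⟨e⟩ := Aw_equiv R w
  rw [Mw_eq R hw] at e
  have hz : Phi (m := m) zz ∈ (Subgroup.closure {x | x ∈ zz :: fx R}).map Phi :=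
    ⟨zz, Subgroup.subset_closure (List.mem_cons_self), rfl⟩
  have hz2 : (Phi (m := m) zz) ^ 2 = 1 := by
    rw [← map_pow]
    have : (zz : P m) ^ 2 = 1 := by
      unfold zz; ext <;> simp
    rw [this, map_one]
  let q : AffG ((Subgroup.closure {x | x ∈ zz :: fx R}).map Phi) :=
    ⟨(Phi (m := m) zz).toEquiv, Phi zz, hz, 0, fun z => by simp⟩
  have hq : q ^ 2 = 1 := by
    apply Subtype.ext
    apply Equiv.ext
    intro z
    have := congrArg (fun f : V ≃ₗ[ℤ] V => f z) hz2
    rw [pow_two] at this ⊢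
    exact this
  have hq1 : q ≠ 1 := by
    intro h
    have h1 := congrArg (fun f => (f.1 : Equiv.Perm V) (0, (1, 0))) h
    have h2 : Phi (m := m) zz (0, (1, 0)) = (0, (1, 0)) := h1
    rw [Phi_apply, zz] at h2
    simp at h2
  refine ⟨e.symm q, ?_, ?_⟩
  · rw [← map_pow, hq, map_one]
  · intro h
    apply hq1
    apply e.symm.injective
    rw [h, map_one]

/-- There is no torsion. -/
theorem no_tors {w : List (Fin m × Bool)}
    (hw : FreeGroup.mk w ∉ Subgroup.normalClosure (R : Set (FreeGroup (Fin m))))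
    (x : (Aw R w).group) {k : ℕ} (hk : k ≠ 0) (hx : x ^ k = 1) : x = 1 := by
  obtain ⟨e⟩ := Aw_equiv R w
  have h1 : (e x) ^ k = 1 := by rw [← map_pow, hx, map_one]
  have key : ∀ q : Equiv.Perm V, q ∈ AffG ((Mw R w).map Phi) → q ^ k = 1 → q = 1 := by
    rintro q ⟨h, ⟨y, hy, rfl⟩, v, hq⟩ hqk
    have hpow : ∀ n : ℕ, ∃ u, ∀ z, (q ^ n) z = Phi (y ^ n) z + u := by
      intro n
      induction n with
      | zero => exact ⟨0, fun z => by simp⟩
      | succ n ih =>
        obtain ⟨u, hu⟩ := ih
        refine ⟨Phi (y ^ n) v + u, fun z => ?_⟩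
        rw [pow_succ, Equiv.Perm.mul_apply, hq, hu, map_add, pow_succ, map_mul,
          LinearEquiv.mul_apply, add_assoc]
    obtain ⟨u, hu⟩ := hpow k
    have hu0 : u = 0 := by
      have := hu 0
      rw [hqk, Equiv.Perm.one_apply, map_zero, zero_add] at this
      exact this.symm
    have hy1 : Phi (y ^ k) = 1 := by
      apply LinearEquiv.ext
      intro z
      have := hu z
      rw [hqk, hu0, add_zero] at this
      exact this.symm
    have hy2 : y ^ k = 1 := Phi_inj (by rw [hy1, map_one])
    have hy3 : y = 1 := tf_Mw R hw hy hk hy2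
    have hq' : ∀ z, q z = z + v := fun z => by rw [hq, hy3, map_one]; rfl
    have hpow' : ∀ n : ℕ, ∀ z, (q ^ n) z = z + n • v := by
      intro n
      induction n with
      | zero => intro z; simp
      | succ n ih =>
        intro z
        rw [pow_succ, Equiv.Perm.mul_apply, hq', ih, add_assoc, succ_nsmul, add_comm v]
    have hv : k • v = 0 := by
      have := hpow' k 0
      rw [hqk, Equiv.Perm.one_apply, zero_add] at this
      exact this.symm
    have hv0 : v = 0 := by
      rcases smul_eq_zero.mp hv with h | h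
      · exact absurd h hk
      · exact h
    apply Equiv.ext
    intro z
    rw [hq', hv0, add_zero]; rfl
  have h2 : e x = 1 := Subtype.ext (key _ (e x).2 (congrArg Subtype.val h1))
  exact e.injective (by rw [h2, map_one])

theorem iso_iff (w : List (Fin m × Bool)) :
    Nonempty ((Aw R w).group ≃* (Aw R []).group) ↔
      FreeGroup.mk w ∈ Subgroup.normalClosure (R : Set (FreeGroup (Fin m))) := by
  have h0 : (FreeGroup.mk [] : FreeGroup (Fin m)) ∈
      Subgroup.normalClosure (R : Set (FreeGroup (Fin m))) := Subgroup.one_mem _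
  constructor
  · rintro ⟨e⟩
    by_contra hw
    obtain ⟨x, hx2, hx1⟩ := exists_inv R h0
    apply hx1
    have := no_tors R hw (e.symm x) (k := 2) (by norm_num) (by rw [← map_pow, hx2, map_one])
    rw [← e.symm.injective.eq_iff, this, map_one]
  · intro hw
    exact equiv_of_mem R hw h0

end Main

/-- The main theorem: for some fixed automaton `B`, no algorithm decides, given an automaton `A`
over 16 letters, whether `G(A)` is isomorphic to `G(B)`. -/
theorem main : ∃ B : Automaton, B.n = 16 ∧
    ¬ ∃ f : ℕ × List (List (ℕ × ℕ)) →. Bool, Partrec f ∧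
      ∀ A : Automaton, A.n = 16 →
        ∃ b : Bool, f A.code = Part.some b ∧ (b = true ↔ Nonempty (A.group ≃* B.group)) := by
  classical
  obtain ⟨m, R, W, hW, hu⟩ := Pool.Agent.Helper270.WP.word_problem
  refine ⟨Aw R [], rfl, ?_⟩
  rintro ⟨f, hf, hA⟩
  apply hu
  have hcode : Computable fun n => (Aw R (W n)).code := by
    have h1 : Primrec fun w : List (Fin m × Bool) =>
        codeF (gn R) (lst (allEnts ((fx R).map Phi)) w) :=
      (prim_codeF (gn R)).comp (prim_lst _)
    exact (h1.to_comp.comp hW).of_eq fun n => (code_AA _ _).symm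
  have hg : Partrec fun n => f (Aw R (W n)).code := hf.comp hcode
  choose b hb hb' using fun n => hA (Aw R (W n)) rfl
  have hbc : Computable b := by
    refine Partrec.of_eq hg fun n => ?_
    rw [hb n]; rfl
  refine ComputablePred.computable_iff.mpr ⟨b, hbc, ?_⟩
  funext n
  apply propext
  rw [hb' n, iso_iff R (W n)]

end Pool.Agent.V5helper35.Iso
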